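import Mathlib

set_option autoImplicit false

/-!
Eigenvector approximants of the generalized Rogers-Ramanujan continued fraction at roots of
unity.  Full proof of Q1: the proof goes through the finite Rogers-Ramanujan identities of
I. Schur (q-binomial coefficients evaluated at a primitive `m`-th root of unity).
-/

namespace Pool.Agent.Results.MP_b3b2bb_nt.EigenvectorApproximants

/-- `P a x n` is the numerator `P_n(a,x)` for `n ≥ 0`: `P_0 = 1`, `P_1 = P_0 + a x P_{-1}` with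
`P_{-1} = 1`, and `P_n = P_{n-1} + a x^n P_{n-2}` for `n ≥ 2`. -/
noncomputable def P (a x : ℂ) : ℕ → ℂ
  | 0 => 1
  | 1 => 1 + a * x * 1
  | (n + 2) => P a x (n + 1) + a * x ^ (n + 2) * P a x n

/-- `Q a x n` is the denominator `Q_n(a,x)` for `n ≥ 0`: `Q_0 = 1 + a`,
`Q_1 = Q_0 + a x Q_{-1}` with `Q_{-1} = 1`, and `Q_n = Q_{n-1} + a x^n Q_{n-2}` for `n ≥ 2`. -/
noncomputable def Q (a x : ℂ) : ℕ → ℂ
  | 0 => 1 + a
  | 1 => (1 + a) + a * x * 1
  | (n + 2) => Q a x (n + 1) + a * x ^ (n + 2) * Q a x n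

section qbinomial

variable {K : Type*} [Field K]

/-- q-binomial coefficients at `x`, lower index an integer. -/
noncomputable def qb (x : K) : ℕ → ℤ → K
  | 0, c => if c = 0 then 1 else 0
  | (N + 1), c => qb x N (c - 1) + x ^ c * qb x N c

theorem qb_succ (x : K) (N : ℕ) (c : ℤ) :
    qb x (N + 1) c = qb x N (c - 1) + x ^ c * qb x N c := rfl

theorem qb_neg (x : K) (N : ℕ) : ∀ c : ℤ, c < 0 → qb x N c = 0 := by
  induction N with
  | zero => intro c hc; simp [qb, hc.ne]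
  | succ N ih =>
    intro c hc
    rw [qb_succ, ih c hc, ih (c - 1) (by omega)]; simp

theorem qb_gt (x : K) (N : ℕ) : ∀ c : ℤ, (N : ℤ) < c → qb x N c = 0 := by
  induction N with
  | zero => intro c hc; simp only [qb]; rw [if_neg]; omega
  | succ N ih =>
    intro c hc
    push_cast at hc
    rw [qb_succ, ih c (by omega), ih (c - 1) (by omega)]; simp

theorem qb_zero_right (x : K) (N : ℕ) : qb x N 0 = 1 := by
  induction N with
  | zero => simp [qb]
  | succ N ih => rw [qb_succ, ih, qb_neg x N (0 - 1) (by norm_num)]; simp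

theorem qb_self (x : K) (N : ℕ) : qb x N (N : ℤ) = 1 := by
  induction N with
  | zero => simp [qb]
  | succ N ih =>
    rw [qb_succ, qb_gt x N ((N + 1 : ℕ) : ℤ) (by push_cast; omega)]
    have : ((N + 1 : ℕ) : ℤ) - 1 = N := by push_cast; ring
    rw [this, ih]; simp

theorem qb_succ' {x : K} (hx : x ≠ 0) (N : ℕ) : ∀ c : ℤ,
    qb x (N + 1) c = x ^ ((N : ℤ) + 1 - c) * qb x N (c - 1) + qb x N c := by
  induction N with
  | zero =>
    intro c
    rw [qb_succ]
    simp only [qb]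
    by_cases h0 : c = 0
    · subst h0; simp
    · by_cases h1 : c = 1
      · subst h1; simp
      · have : ¬ (c - 1 = 0) := by omega
        simp [h0, this]
  | succ N ih =>
    intro c
    have e1 : qb x (N + 1 + 1) c = qb x (N + 1) (c - 1) + x ^ c * qb x (N + 1) c := rfl
    have e2 : qb x (N + 1) (c - 1) =
        x ^ ((N : ℤ) + 1 - (c - 1)) * qb x N (c - 1 - 1) + qb x N (c - 1) := ih (c - 1)
    have e3 : qb x (N + 1) c = x ^ ((N : ℤ) + 1 - c) * qb x N (c - 1) + qb x N c := ih c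
    have e4 : qb x (N + 1) (c - 1) = qb x N (c - 1 - 1) + x ^ (c - 1) * qb x N (c - 1) := rfl
    have e5 : qb x (N + 1) c = qb x N (c - 1) + x ^ c * qb x N c := rfl
    have p1 : x ^ c * x ^ ((N : ℤ) + 1 - c) = x ^ ((N : ℤ) + 1) := by
      rw [← zpow_add₀ hx]; congr 1; ring
    have p2 : x ^ (((N + 1 : ℕ) : ℤ) + 1 - c) * x ^ (c - 1) = x ^ ((N : ℤ) + 1) := by
      rw [← zpow_add₀ hx]; congr 1; push_cast; ring
    have p3 : x ^ ((N : ℤ) + 1 - (c - 1)) = x ^ (((N + 1 : ℕ) : ℤ) + 1 - c) := by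
      congr 1; push_cast; ring
    calc qb x (N + 1 + 1) c
        = (x ^ ((N : ℤ) + 1 - (c - 1)) * qb x N (c - 1 - 1) + qb x N (c - 1))
          + x ^ c * (x ^ ((N : ℤ) + 1 - c) * qb x N (c - 1) + qb x N c) := by
            rw [e1, e2, e3]
      _ = x ^ (((N + 1 : ℕ) : ℤ) + 1 - c) * qb x N (c - 1 - 1) + qb x N (c - 1)
          + x ^ ((N : ℤ) + 1) * qb x N (c - 1) + x ^ c * qb x N c := by
            rw [p3, ← p1]; ring
      _ = x ^ (((N + 1 : ℕ) : ℤ) + 1 - c) * qb x (N + 1) (c - 1) + qb x (N + 1) c := by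
            rw [e4, e5, mul_add, ← mul_assoc, p2]; ring

/-- `(1 - x^c) [N+1, c] = (1 - x^(N+1)) [N, c-1]`. -/
theorem qb_absorb {x : K} (hx : x ≠ 0) (N : ℕ) (c : ℤ) :
    (1 - x ^ c) * qb x (N + 1) c = (1 - x ^ ((N : ℤ) + 1)) * qb x N (c - 1) := by
  have h1 := qb_succ x N c
  have h2 := qb_succ' hx N c
  have p1 : x ^ c * x ^ ((N : ℤ) + 1 - c) = x ^ ((N : ℤ) + 1) := by
    rw [← zpow_add₀ hx]; congr 1; ring
  calc (1 - x ^ c) * qb x (N + 1) c = qb x (N + 1) c - x ^ c * qb x (N + 1) c := by ring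
    _ = (qb x N (c - 1) + x ^ c * qb x N c)
        - x ^ c * (x ^ ((N : ℤ) + 1 - c) * qb x N (c - 1) + qb x N c) := by
          rw [← h2, ← h1]
    _ = (1 - x ^ ((N : ℤ) + 1)) * qb x N (c - 1) := by rw [← p1]; ring

theorem qb_primitive {x : K} {m : ℕ} (hm : 0 < m) (hx : IsPrimitiveRoot x m) (c : ℤ)
    (h0 : c ≠ 0) (h1 : c ≠ m) : qb x m c = 0 := by
  have hx0 : x ≠ 0 := hx.ne_zero hm.ne'
  rcases lt_or_ge c 0 with h | h
  · exact qb_neg x m c h
  rcases lt_or_ge (m : ℤ) c with h' | h'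
  · exact qb_gt x m c h'
  obtain ⟨N, rfl⟩ : ∃ N, m = N + 1 := ⟨m - 1, by omega⟩
  have hab := qb_absorb hx0 N c
  have hone : x ^ ((N : ℤ) + 1) = 1 := by
    have := hx.pow_eq_one
    exact_mod_cast this
  rw [hone, sub_self, zero_mul] at hab
  rcases mul_eq_zero.mp hab with h2 | h2
  · exfalso
    have h3 : x ^ c = 1 := by
      have := sub_eq_zero.mp h2; exact this.symm
    have h4 : ((N + 1 : ℕ) : ℤ) ∣ c := (hx.zpow_eq_one_iff_dvd c).mp h3
    have := Int.le_of_dvd (by omega) h4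
    omega
  · exact h2

/-- The terms of Schur's sums. -/
noncomputable def T (x : K) (δ : ℤ) (n : ℕ) (l : ℤ) : K :=
  (-1) ^ l * x ^ (l * (5 * l + 1) / 2 - l * δ) * qb x n (((n : ℤ) - 5 * l + δ) / 2)

/-- The telescoping auxiliary terms. -/
noncomputable def Y (x : K) (δ : ℤ) (n : ℕ) (l : ℤ) : K :=
  if ((n : ℤ) + 1 - 5 * l + δ) % 2 = 0 then
    (-1) ^ l * x ^ (l * (5 * l + 1) / 2 - l * δ + (n : ℤ) + 2 - ((n : ℤ) + 1 - 5 * l + δ) / 2)
      * qb x n (((n : ℤ) + 1 - 5 * l + δ) / 2 - 2)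
  else 0

theorem two_e (l : ℤ) : 2 * (l * (5 * l + 1) / 2) = l * (5 * l + 1) := by
  have : (2 : ℤ) ∣ l * (5 * l + 1) := by
    rcases Int.even_or_odd l with h | h
    · exact Dvd.dvd.mul_right h.two_dvd _
    · apply Dvd.dvd.mul_left
      obtain ⟨k, rfl⟩ := h
      exact ⟨5 * k + 3, by ring⟩
  omega

theorem T_rec {x : K} (hx : x ≠ 0) (δ : ℤ) (n : ℕ) (l : ℤ) :
    T x δ (n + 2) l - T x δ (n + 1) l - x ^ (n + 1) * T x δ n l = Y x δ n l - Y x δ n (l - 1) := by
  have hneg : ((-1 : K)) ^ (l - 1) = -((-1) ^ l) := by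
    rw [zpow_sub₀ (neg_ne_zero.mpr one_ne_zero), zpow_one, div_neg, div_one]
  rcases Int.emod_two_eq_zero_or_one ((n : ℤ) + 1 - 5 * l + δ) with hN | hN
  · -- even case
    obtain ⟨u, hu⟩ : ∃ u, (n : ℤ) + 1 - 5 * l + δ = 2 * u :=
      ⟨((n : ℤ) + 1 - 5 * l + δ) / 2, by omega⟩
    have hY1 : Y x δ n (l - 1) = 0 := by
      unfold Y; rw [if_neg]; omega
    have hY0 : Y x δ n l = (-1) ^ l * x ^ (l * (5 * l + 1) / 2 - l * δ + (n : ℤ) + 2 - u)
        * qb x n (u - 2) := by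
      unfold Y; rw [if_pos hN]
      have : ((n : ℤ) + 1 - 5 * l + δ) / 2 = u := by omega
      rw [this]
    have i2 : (((n + 2 : ℕ) : ℤ) - 5 * l + δ) / 2 = u := by push_cast; omega
    have i1 : (((n + 1 : ℕ) : ℤ) - 5 * l + δ) / 2 = u := by push_cast; omega
    have i0 : ((n : ℤ) - 5 * l + δ) / 2 = u - 1 := by omega
    rw [hY1, hY0]
    unfold T
    rw [i2, i1, i0]
    have q1 := qb_succ' hx (n + 1) u
    have q2 := qb_succ x n (u - 1)
    have q1' : qb x (n + 2) u = x ^ (((n + 1 : ℕ) : ℤ) + 1 - u) * qb x (n + 1) (u - 1)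
        + qb x (n + 1) u := q1
    have q2' : qb x (n + 1) (u - 1) = qb x n (u - 2) + x ^ (u - 1) * qb x n (u - 1) := by
      rw [q2]; congr 2; ring
    have p1 : x ^ (((n + 1 : ℕ) : ℤ) + 1 - u) * x ^ (u - 1) = x ^ (n + 1) := by
      rw [← zpow_add₀ hx, ← zpow_natCast]; congr 1; push_cast; ring
    have p2 : x ^ (l * (5 * l + 1) / 2 - l * δ + (n : ℤ) + 2 - u)
        = x ^ (l * (5 * l + 1) / 2 - l * δ) * x ^ (((n + 1 : ℕ) : ℤ) + 1 - u) := by
      rw [← zpow_add₀ hx]; congr 1; push_cast; ring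
    rw [q1', q2', p2, ← p1]
    ring
  · -- odd case
    obtain ⟨u, hu⟩ : ∃ u, (n : ℤ) + 1 - 5 * l + δ = 2 * u + 1 :=
      ⟨((n : ℤ) + 1 - 5 * l + δ) / 2, by omega⟩
    have hY0 : Y x δ n l = 0 := by
      unfold Y; rw [if_neg]; omega
    have hY1 : Y x δ n (l - 1) = -((-1) ^ l * x ^ (l * (5 * l + 1) / 2 - l * δ + u + 1)
        * qb x n (u + 1)) := by
      unfold Y; rw [if_pos (by omega), hneg]
      have e1 : ((n : ℤ) + 1 - 5 * (l - 1) + δ) / 2 = u + 3 := by omega
      rw [e1]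
      have e2 : (l - 1) * (5 * (l - 1) + 1) / 2 - (l - 1) * δ + (n : ℤ) + 2 - (u + 3)
          = l * (5 * l + 1) / 2 - l * δ + u + 1 := by
        have h1 := two_e l
        have h2 := two_e (l - 1)
        have h3 : 2 * ((l - 1) * (5 * (l - 1) + 1) / 2) = 2 * (l * (5 * l + 1) / 2) - 10 * l + 4 := by
          rw [h1, h2]; ring
        have h4 : (l - 1) * δ = l * δ - δ := by ring
        rw [h4]
        omega
      have e3 : u + 3 - 2 = u + 1 := by ring
      rw [e2, e3]; ring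
    have i2 : (((n + 2 : ℕ) : ℤ) - 5 * l + δ) / 2 = u + 1 := by push_cast; omega
    have i1 : (((n + 1 : ℕ) : ℤ) - 5 * l + δ) / 2 = u := by push_cast; omega
    have i0 : ((n : ℤ) - 5 * l + δ) / 2 = u := by omega
    rw [hY1, hY0]
    unfold T
    rw [i2, i1, i0]
    have q1 : qb x (n + 2) (u + 1) = qb x (n + 1) u + x ^ (u + 1) * qb x (n + 1) (u + 1) := by
      have := qb_succ x (n + 1) (u + 1)
      rw [this]; congr 2; ring
    have q2 : qb x (n + 1) (u + 1) = x ^ ((n : ℤ) + 1 - (u + 1)) * qb x n u + qb x n (u + 1) := by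
      have := qb_succ' hx n (u + 1)
      rw [this]; congr 3; ring
    have p1 : x ^ (u + 1) * x ^ ((n : ℤ) + 1 - (u + 1)) = x ^ (n + 1) := by
      rw [← zpow_add₀ hx, ← zpow_natCast]; congr 1; push_cast; ring
    have p2 : x ^ (l * (5 * l + 1) / 2 - l * δ + u + 1)
        = x ^ (l * (5 * l + 1) / 2 - l * δ) * x ^ (u + 1) := by
      rw [← zpow_add₀ hx]; congr 1; ring
    rw [q1, q2, p2, ← p1]
    ring

theorem tele (f : ℤ → K) (c : ℤ) (n : ℕ) :
    ∑ l ∈ Finset.Icc c (c + n), (f l - f (l - 1)) = f (c + n) - f (c - 1) := by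
  induction n with
  | zero => simp
  | succ n ih =>
    have h : Finset.Icc c (c + ((n + 1 : ℕ) : ℤ)) = insert (c + n + 1) (Finset.Icc c (c + n)) := by
      ext z; simp only [Finset.mem_Icc, Finset.mem_insert]; push_cast; omega
    rw [h, Finset.sum_insert, ih]
    · have e1 : c + (n : ℤ) + 1 - 1 = c + n := by ring
      have e2 : c + ((n + 1 : ℕ) : ℤ) = c + n + 1 := by push_cast; ring
      rw [e1, e2]; ring
    · simp only [Finset.mem_Icc, not_and, not_le]; omega

/-- Schur's sum, over a range of summation large enough to contain all the nonzero terms. -/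
noncomputable def Sch (x : K) (δ : ℤ) (L n : ℕ) : K :=
  ∑ l ∈ Finset.Icc (-(L : ℤ)) (-(L : ℤ) + ((2 * L : ℕ) : ℤ)), T x δ n l

theorem Sch_rec {x : K} (hx : x ≠ 0) (δ : ℤ) (h0 : 0 ≤ δ) (h2 : δ ≤ 2) (L n : ℕ)
    (hL : n + 1 ≤ L) : Sch x δ L (n + 2) = Sch x δ L (n + 1) + x ^ (n + 1) * Sch x δ L n := by
  have h := tele (Y x δ n) (-(L : ℤ)) (2 * L)
  have hs : ∑ l ∈ Finset.Icc (-(L : ℤ)) (-(L : ℤ) + ((2 * L : ℕ) : ℤ)),
      (Y x δ n l - Y x δ n (l - 1)) =
      Sch x δ L (n + 2) - Sch x δ L (n + 1) - x ^ (n + 1) * Sch x δ L n := by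
    unfold Sch
    rw [Finset.mul_sum, ← Finset.sum_sub_distrib, ← Finset.sum_sub_distrib]
    exact Finset.sum_congr rfl fun l _ => (T_rec hx δ n l).symm
  have hY1 : Y x δ n (-(L : ℤ) + ((2 * L : ℕ) : ℤ)) = 0 := by
    unfold Y
    split_ifs with hc
    · rw [qb_neg x n _ (by push_cast; omega), mul_zero]
    · rfl
  have hY2 : Y x δ n (-(L : ℤ) - 1) = 0 := by
    unfold Y
    split_ifs with hc
    · rw [qb_gt x n _ (by omega), mul_zero]
    · rfl
  rw [hs, hY1, hY2] at h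
  linear_combination h

/-- The solution with initial values `0, 1` of `w (t+2) = w (t+1) + x^(t+1) w t`. -/
noncomputable def Ssol (x : K) : ℕ → K
  | 0 => 0
  | 1 => 1
  | (n + 2) => Ssol x (n + 1) + x ^ (n + 1) * Ssol x n

/-- The solution with initial values `1, 1` of `w (t+2) = w (t+1) + x^(t+1) w t`. -/
noncomputable def Gsol (x : K) : ℕ → K
  | 0 => 1
  | 1 => 1
  | (n + 2) => Gsol x (n + 1) + x ^ (n + 1) * Gsol x n

theorem qb_zero_left (x : K) (c : ℤ) : qb x 0 c = if c = 0 then 1 else 0 := rfl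

theorem Sch_two {x : K} (hx : x ≠ 0) (L : ℕ) : ∀ n, n ≤ L → Sch x 2 L n = Ssol x n
  | 0 => by
    intro _
    unfold Sch Ssol
    apply Finset.sum_eq_zero
    intro l _
    unfold T
    rw [qb_zero_left, if_neg, mul_zero]
    push_cast; omega
  | 1 => by
    intro hL
    unfold Sch Ssol
    rw [Finset.sum_eq_single 0]
    · unfold T
      have : (((1 : ℕ) : ℤ) - 5 * 0 + 2) / 2 = ((1 : ℕ) : ℤ) := by norm_num
      rw [this, qb_self]; simp
    · intro l _ hl
      unfold T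
      rcases lt_or_gt_of_ne hl with h | h
      · rw [qb_gt x 1 _ (by push_cast; omega), mul_zero]
      · rw [qb_neg x 1 _ (by push_cast; omega), mul_zero]
    · intro h; exfalso; apply h
      simp only [Finset.mem_Icc]; push_cast; omega
  | (n + 2) => by
    intro hL
    rw [Sch_rec hx 2 (by norm_num) (by norm_num) L n (by omega),
      Sch_two hx L (n + 1) (by omega), Sch_two hx L n (by omega)]
    rfl

theorem Sch_zero {x : K} (hx : x ≠ 0) (L : ℕ) : ∀ n, n ≤ L → Sch x 0 L n = Gsol x n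
  | 0 => by
    intro _
    unfold Sch Gsol
    rw [Finset.sum_eq_single 0]
    · unfold T; simp [qb_zero_left]
    · intro l _ hl
      unfold T
      rw [qb_zero_left, if_neg, mul_zero]
      push_cast; omega
    · intro h; exfalso; apply h
      simp only [Finset.mem_Icc]; push_cast; omega
  | 1 => by
    intro hL
    unfold Sch Gsol
    rw [Finset.sum_eq_single 0]
    · unfold T
      have : (((1 : ℕ) : ℤ) - 5 * 0 + 0) / 2 = 0 := by norm_num
      rw [this, qb_zero_right]; simp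
    · intro l _ hl
      unfold T
      rcases lt_or_gt_of_ne hl with h | h
      · rw [qb_gt x 1 _ (by push_cast; omega), mul_zero]
      · rw [qb_neg x 1 _ (by push_cast; omega), mul_zero]
    · intro h; exfalso; apply h
      simp only [Finset.mem_Icc]; push_cast; omega
  | (n + 2) => by
    intro hL
    rw [Sch_rec hx 0 (by norm_num) (by norm_num) L n (by omega),
      Sch_zero hx L (n + 1) (by omega), Sch_zero hx L n (by omega)]
    rfl

theorem Ssol_primitive {x : K} {M : ℕ} (hM : 0 < M) (hx : IsPrimitiveRoot x (5 * M)) :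
    Ssol x (5 * M) = 0 := by
  have hm : 0 < 5 * M := by omega
  rw [← Sch_two (hx.ne_zero hm.ne') (5 * M) (5 * M) le_rfl]
  unfold Sch
  apply Finset.sum_eq_zero
  intro l _
  unfold T
  rw [qb_primitive hm hx, mul_zero]
  · push_cast; omega
  · push_cast; omega

/-- The sign in front of the two surviving terms. -/
theorem kappa {x : K} {M : ℕ} (hM : 0 < M) (hx : IsPrimitiveRoot x (5 * M)) :
    ((-1 : K)) ^ (M : ℤ) * x ^ (5 * (M : ℤ) * ((M : ℤ) - 1) / 2) = -1 := by
  have hx0 : x ≠ 0 := hx.ne_zero (by omega)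
  have h1 : x ^ ((5 : ℤ) * M) = 1 := by
    have := hx.pow_eq_one
    exact_mod_cast this
  rcases Nat.even_or_odd M with ⟨t, ht⟩ | ⟨t, ht⟩
  · have ht0 : 0 < t := by omega
    have hhalf : x ^ ((5 : ℤ) * t) = -1 := by
      have hsq : x ^ ((5 : ℤ) * t) * x ^ ((5 : ℤ) * t) = 1 := by
        rw [← zpow_add₀ hx0, ← h1]; congr 1; rw [ht]; push_cast; ring
      rcases mul_self_eq_one_iff.mp hsq with h | h
      · exfalso
        have := (hx.zpow_eq_one_iff_dvd _).mp h
        have := Int.le_of_dvd (by positivity) this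
        rw [ht] at this; push_cast at this; omega
      · exact h
    have e : 5 * (M : ℤ) * ((M : ℤ) - 1) / 2 = (5 * t) * (2 * t - 1) := by
      have : 5 * (M : ℤ) * ((M : ℤ) - 1) = 2 * ((5 * t) * (2 * t - 1)) := by
        rw [ht]; push_cast; ring
      omega
    have e2 : (M : ℤ) = 2 * t := by rw [ht]; push_cast; ring
    rw [e, zpow_mul, hhalf, e2, ← zpow_add₀ (neg_ne_zero.mpr one_ne_zero)]
    have : (2 * (t : ℤ) + (2 * t - 1)) = 2 * (2 * t - 1) + 1 := by ring
    rw [this, zpow_add₀ (neg_ne_zero.mpr one_ne_zero), zpow_mul]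
    norm_num
  · have e : 5 * (M : ℤ) * ((M : ℤ) - 1) / 2 = (5 * M) * t := by
      have : 5 * (M : ℤ) * ((M : ℤ) - 1) = 2 * ((5 * M) * t) := by
        rw [ht]; push_cast; ring
      omega
    have e2 : (M : ℤ) = 2 * t + 1 := by rw [ht]; push_cast; ring
    rw [e, zpow_mul, h1, one_zpow, mul_one, e2, zpow_add₀ (neg_ne_zero.mpr one_ne_zero), zpow_mul]
    norm_num

theorem Gsol_primitive {x : K} {M : ℕ} (hM : 0 < M) (hx : IsPrimitiveRoot x (5 * M)) :
    Gsol x (5 * M) = -((x ^ M) ^ 3 + (x ^ M) ^ 2) := by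
  have hm : 0 < 5 * M := by omega
  have hx0 : x ≠ 0 := hx.ne_zero hm.ne'
  have hk := kappa hM hx
  rw [← Sch_zero hx0 (5 * M) (5 * M) le_rfl]
  unfold Sch
  have hne : (M : ℤ) ≠ -(M : ℤ) := by omega
  rw [← Finset.sum_subset (s₁ := {(M : ℤ), -(M : ℤ)})]
  · rw [Finset.sum_pair hne]
    have e1 : (((5 * M : ℕ) : ℤ) - 5 * (M : ℤ) + 0) / 2 = 0 := by push_cast; omega
    have e2 : (((5 * M : ℕ) : ℤ) - 5 * (-(M : ℤ)) + 0) / 2 = ((5 * M : ℕ) : ℤ) := by
      push_cast; omega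
    have t1 : T x 0 (5 * M) (M : ℤ) = -(x ^ M) ^ 3 := by
      unfold T
      rw [e1, qb_zero_right]
      have h3 : (M : ℤ) * (5 * (M : ℤ) + 1) / 2 - (M : ℤ) * 0
          = 5 * (M : ℤ) * ((M : ℤ) - 1) / 2 + ((M * 3 : ℕ) : ℤ) := by
        have h4 : (M : ℤ) * (5 * (M : ℤ) + 1) = 5 * (M : ℤ) * ((M : ℤ) - 1) + 2 * (3 * M) := by ring
        push_cast; omega
      rw [h3, zpow_add₀ hx0, ← mul_assoc, hk, zpow_natCast, pow_mul]; ring
    have t2 : T x 0 (5 * M) (-(M : ℤ)) = -(x ^ M) ^ 2 := by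
      unfold T
      rw [e2, qb_self]
      have h3 : -(M : ℤ) * (5 * -(M : ℤ) + 1) / 2 - -(M : ℤ) * 0
          = 5 * (M : ℤ) * ((M : ℤ) - 1) / 2 + ((M * 2 : ℕ) : ℤ) := by
        have h4 : -(M : ℤ) * (5 * -(M : ℤ) + 1) = 5 * (M : ℤ) * ((M : ℤ) - 1) + 2 * (2 * M) := by
          ring
        push_cast; omega
      have h5 : ((-1 : K)) ^ (-(M : ℤ)) = (-1) ^ (M : ℤ) := by
        rw [zpow_neg, ← inv_zpow, inv_neg, inv_one]
      rw [h3, zpow_add₀ hx0, h5, ← mul_assoc, hk, zpow_natCast, pow_mul]; ring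
    rw [t1, t2]; ring
  · intro l hl
    simp only [Finset.mem_insert, Finset.mem_singleton] at hl
    simp only [Finset.mem_Icc]; push_cast; omega
  · intro l _ hl
    simp only [Finset.mem_insert, Finset.mem_singleton, not_or] at hl
    unfold T
    rw [qb_primitive hm hx, mul_zero]
    · push_cast; omega
    · push_cast; omega

theorem Gsol_sq {x : K} {M : ℕ} (hM : 0 < M) (hx : IsPrimitiveRoot x (5 * M)) :
    Gsol x (5 * M) ^ 2 = Gsol x (5 * M) + 1 := by
  rw [Gsol_primitive hM hx]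
  have hz : IsPrimitiveRoot (x ^ M) 5 := hx.pow (by omega) (by ring)
  set z := x ^ M
  have h5 : z ^ 5 = 1 := hz.pow_eq_one
  have hne : z ≠ 1 := hz.ne_one (by norm_num)
  have hsum : z ^ 4 + z ^ 3 + z ^ 2 + z + 1 = 0 := by
    have : (z - 1) * (z ^ 4 + z ^ 3 + z ^ 2 + z + 1) = 0 := by linear_combination h5
    rcases mul_eq_zero.mp this with h | h
    · exact absurd (sub_eq_zero.mp h) hne
    · exact h
  linear_combination (z + 2) * h5 + hsum

/-- General solution of the recurrence on a finite range. -/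
theorem gen_sol (x : K) (N : ℕ) (w : ℕ → K)
    (hw : ∀ t, t + 2 ≤ N → w (t + 2) = w (t + 1) + x ^ (t + 1) * w t) :
    ∀ t, t ≤ N → w t = (w 1 - w 0) * Ssol x t + w 0 * Gsol x t
  | 0 => by intro _; simp [Ssol, Gsol]
  | 1 => by intro _; simp [Ssol, Gsol]
  | (t + 2) => by
    intro ht
    rw [hw t ht, gen_sol x N w hw (t + 1) (by omega), gen_sol x N w hw t (by omega)]
    simp only [Ssol, Gsol]
    ring

/-- First index class. -/
theorem case_one {x : K} {M : ℕ} (hM : 0 < M) (hx : IsPrimitiveRoot x (5 * M)) (w : ℕ → K)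
    (hw : ∀ t, w (t + 2) = w (t + 1) + x ^ (t + 1) * w t) :
    w (5 * M) = Gsol x (5 * M) * w 0 := by
  rw [gen_sol x (5 * M) w (fun t _ => hw t) (5 * M) le_rfl, Ssol_primitive hM hx]; ring

/-- The scaling factors used to reverse the recurrence. -/
noncomputable def cfac (x : K) (m : ℕ) : ℕ → K
  | 0 => 1
  | (s + 1) => -(x ^ (m - s - 1)) * cfac x m s

theorem cfac_eq (x : K) (m : ℕ) : ∀ s, s ≤ m →
    cfac x m s * x ^ ((m - s) * (m - s - 1) / 2) = (-1) ^ s * x ^ (m * (m - 1) / 2)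
  | 0 => by intro _; simp [cfac]
  | (s + 1) => by
    intro hs
    have ih := cfac_eq x m s (by omega)
    obtain ⟨d, hd⟩ : ∃ d, m = s + 1 + d := ⟨m - s - 1, by omega⟩
    have e1 : m - s = d + 1 := by omega
    have e2 : m - s - 1 = d := by omega
    have e3 : m - (s + 1) = d := by omega
    have e4 : (d + 1) * d / 2 = d * (d - 1) / 2 + d := by
      rcases Nat.eq_zero_or_pos d with h | h
      · subst h; rfl
      · obtain ⟨e, rfl⟩ : ∃ e, d = e + 1 := ⟨d - 1, by omega⟩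
        have : (e + 1 + 1) * (e + 1) = (e + 1) * (e + 1 - 1) + 2 * (e + 1) := by
          simp only [Nat.add_sub_cancel]; ring
        rw [this]; omega
    rw [e2, e1, e4] at ih
    simp only [cfac]
    rw [e2, e3]
    rw [pow_add] at ih
    rw [pow_succ]
    linear_combination (-1 : K) * ih

theorem cfac_last {x : K} {m : ℕ} (hm : 0 < m) (hx : IsPrimitiveRoot x m) :
    cfac x m m = -1 := by
  have h := cfac_eq x m m le_rfl
  simp only [Nat.sub_self, Nat.zero_mul, Nat.zero_div, pow_zero, mul_one] at h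
  rw [h]
  rcases Nat.even_or_odd m with ⟨t, ht⟩ | ⟨t, ht⟩
  · have ht0 : 0 < t := by omega
    have hhalf : x ^ t = -1 := by
      have hsq : x ^ t * x ^ t = 1 := by rw [← pow_add, ← ht, hx.pow_eq_one]
      rcases mul_self_eq_one_iff.mp hsq with h' | h'
      · exfalso
        have := Nat.le_of_dvd ht0 ((hx.pow_eq_one_iff_dvd t).mp h')
        omega
      · exact h'
    have e : m * (m - 1) / 2 = t * (m - 1) := by
      rw [ht, show (t + t) * (t + t - 1) = 2 * (t * (t + t - 1)) by ring]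
      omega
    have e1 : m + (m - 1) = 2 * (m - 1) + 1 := by omega
    rw [e, pow_mul, hhalf, ← pow_add, e1, pow_succ, pow_mul]
    norm_num
  · have e : m * (m - 1) / 2 = m * t := by
      rw [show m - 1 = 2 * t by omega, show m * (2 * t) = 2 * (m * t) by ring]
      omega
    rw [e, pow_mul, hx.pow_eq_one, one_pow, mul_one, ht, pow_succ, pow_mul]
    norm_num

/-- Second index class. -/
theorem case_two {x : K} {M : ℕ} (hM : 0 < M) (hx : IsPrimitiveRoot x (5 * M)) (w : ℕ → K)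
    (hw : ∀ t, w (t + 2) = w (t + 1) + x ^ t * w t) :
    w (5 * M) = (1 - Gsol x⁻¹ (5 * M)) * w 0 := by
  have hm : 0 < 5 * M := by omega
  have hx0 : x ≠ 0 := hx.ne_zero hm.ne'
  have hy : IsPrimitiveRoot x⁻¹ (5 * M) := hx.inv
  set m := 5 * M with hmdef
  set z : ℕ → K := fun s => cfac x m s * w (m - s) with hz
  have hrec : ∀ t, t + 2 ≤ m → z (t + 2) = z (t + 1) + x⁻¹ ^ (t + 1) * z t := by
    intro s hs
    obtain ⟨d, hd⟩ : ∃ d, m = s + 2 + d := ⟨m - s - 2, by omega⟩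
    have e0 : m - s = d + 2 := by omega
    have e1 : m - (s + 1) = d + 1 := by omega
    have e2 : m - (s + 2) = d := by omega
    have e3 : d + 2 - 1 = d + 1 := by omega
    have e4 : d + 1 - 1 = d := by omega
    have hwd := hw d
    have hone : x ^ (d + 1) * x ^ (s + 1) = 1 := by
      rw [← pow_add, show d + 1 + (s + 1) = m by omega, hx.pow_eq_one]
    have hinv : x⁻¹ ^ (s + 1) = x ^ (d + 1) := by
      rw [inv_pow]
      exact inv_eq_of_mul_eq_one_left hone
    simp only [hz, cfac]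
    rw [e0, e1, e2, e3, e4, hinv, hwd]
    ring
  have hfin := gen_sol x⁻¹ m z hrec m le_rfl
  rw [Ssol_primitive hM hy] at hfin
  have hsq := Gsol_sq hM hy
  simp only [hz, Nat.sub_self, cfac_last hm hx, cfac, Nat.sub_zero, mul_zero, zero_add,
    one_mul] at hfin
  -- hfin : -1 * w 0 = w m * G
  set G := Gsol x⁻¹ (5 * M) with hG
  have hG0 : G ≠ 0 := by
    intro h; rw [h] at hsq; norm_num at hsq
  have h1 : w m * G = (1 - G) * w 0 * G := by
    rw [← hfin]; linear_combination (w 0) * hsq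
  exact mul_right_cancel₀ hG0 h1

end qbinomial

section main

open Complex

/-- Any solution `R` of `R_n = R_{n-1} + a x^n R_{n-2}` with `x^m = 1` satisfies
`R_{n+m} = a x^(m-1) R_{m-3} P_n + R_{m-2} Q_n`. -/
theorem shift_row {a x : ℂ} {N : ℕ} (hx : x ^ (N + 3) = 1) (R : ℕ → ℂ)
    (hR : ∀ n, R (n + 2) = R (n + 1) + a * x ^ (n + 2) * R n) :
    ∀ n, R (n + (N + 3)) = a * x ^ (N + 2) * R N * P a x n + R (N + 1) * Q a x n
  | 0 => by
    have h1 := hR N
    have h2 := hR (N + 1)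
    have e2 : R (N + 1 + 2) = R (0 + (N + 3)) := by congr 1; omega
    have hx' : x ^ (N + 1 + 2) = 1 := by rw [← hx]
    simp only [P, Q]
    rw [← e2, h2, hx', show N + 1 + 1 = N + 2 from rfl, h1]
    ring
  | 1 => by
    have h1 := hR N
    have h2 := hR (N + 1)
    have h3 := hR (N + 2)
    have e3 : R (N + 2 + 2) = R (1 + (N + 3)) := by congr 1; omega
    have hx' : x ^ (N + 1 + 2) = 1 := by rw [← hx]
    have hx'' : x ^ (N + 2 + 2) = x := by
      rw [show N + 2 + 2 = (N + 3) + 1 from rfl, pow_succ, hx, one_mul]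
    simp only [P, Q]
    rw [← e3, h3, hx'', show N + 2 + 1 = N + 1 + 2 from rfl, h2, hx',
      show N + 1 + 1 = N + 2 from rfl, h1]
    ring
  | (n + 2) => by
    have h := hR (n + (N + 3))
    have e : n + 2 + (N + 3) = n + (N + 3) + 2 := by ring
    have hxn : x ^ (n + (N + 3) + 2) = x ^ (n + 2) := by
      rw [show n + (N + 3) + 2 = (n + 2) + (N + 3) by ring, pow_add, hx, mul_one]
    have i1 := shift_row hx R hR (n + 1)
    have i0 := shift_row hx R hR n
    rw [e, h, hxn, show n + (N + 3) + 1 = n + 1 + (N + 3) by ring, i1, i0]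
    simp only [P, Q]
    ring

theorem casorati (a x : ℂ) (ha : a ≠ 0) (hx : x ≠ 0) :
    ∀ n, P a x (n + 1) * Q a x n - P a x n * Q a x (n + 1) ≠ 0
  | 0 => by
    have : P a x (0 + 1) * Q a x 0 - P a x 0 * Q a x (0 + 1) = a ^ 2 * x := by
      simp only [P, Q]; ring
    rw [this]; exact mul_ne_zero (pow_ne_zero _ ha) hx
  | (n + 1) => by
    have ih := casorati a x ha hx n
    have : P a x (n + 1 + 1) * Q a x (n + 1) - P a x (n + 1) * Q a x (n + 1 + 1)
        = -(a * x ^ (n + 2)) * (P a x (n + 1) * Q a x n - P a x n * Q a x (n + 1)) := by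
      simp only [P, Q]; ring
    rw [this]
    exact mul_ne_zero (neg_ne_zero.mpr (mul_ne_zero ha (pow_ne_zero _ hx))) ih

theorem vec_ne_zero (a x : ℂ) (ha : a ≠ 0) (hx : x ≠ 0) (r : ℕ) :
    ![P a x r, Q a x r] ≠ 0 := by
  intro h
  have hP : P a x r = 0 := by simpa using congrFun h 0
  have hQ : Q a x r = 0 := by simpa using congrFun h 1
  exact casorati a x ha hx r (by rw [hP, hQ]; ring)

theorem golden {μ : ℂ} (h : μ ^ 2 = μ + 1) :
    μ = (1 + (Real.sqrt 5 : ℂ)) / 2 ∨ μ = (1 - (Real.sqrt 5 : ℂ)) / 2 := by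
  have h5 : (Real.sqrt 5 : ℂ) ^ 2 = 5 := by
    rw [← Complex.ofReal_pow, Real.sq_sqrt (by norm_num)]; norm_num
  have : (μ - (1 + (Real.sqrt 5 : ℂ)) / 2) * (μ - (1 - (Real.sqrt 5 : ℂ)) / 2) = 0 := by
    linear_combination h - h5 / 4
  rcases mul_eq_zero.mp this with h' | h'
  · left; exact sub_eq_zero.mp h'
  · right; exact sub_eq_zero.mp h'

/-- **Q1 holds.** -/
theorem result (k m : ℕ) (j l : ℤ) (hk : 1 ≤ k) (hm : 3 ≤ m)
    (hj : IsCoprime j (k : ℤ)) (hl : IsCoprime l (m : ℤ)) (h5 : 5 ∣ m) (hkm : k ∣ m)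
    (a x : ℂ) (ha : a = Complex.exp (2 * Real.pi * Complex.I * j / k))
    (hx : x = Complex.exp (2 * Real.pi * Complex.I * l / m))
    (l' s₀ : ℤ) (hl' : l * l' ≡ 1 [ZMOD m]) (hs₀ : s₀ ≡ -((m / k : ℕ) : ℤ) * j * l' [ZMOD m])
    (r : ℕ) (hr : (r : ℤ) ≡ s₀ - 1 [ZMOD m] ∨ (r : ℤ) ≡ s₀ - 2 [ZMOD m]) :
    ![P a x r, Q a x r] ≠ 0 ∧
    ∃ μ : ℂ, (μ = (1 + (Real.sqrt 5 : ℂ)) / 2 ∨ μ = (1 - (Real.sqrt 5 : ℂ)) / 2) ∧
      Matrix.mulVec !![a * x ^ (m - 1) * P a x (m - 3), P a x (m - 2);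
                       a * x ^ (m - 1) * Q a x (m - 3), Q a x (m - 2)] ![P a x r, Q a x r]
        = μ • ![P a x r, Q a x r] := by
  have ha0 : a ≠ 0 := by rw [ha]; exact Complex.exp_ne_zero _
  have hx0 : x ≠ 0 := by rw [hx]; exact Complex.exp_ne_zero _
  obtain ⟨M, rfl⟩ := h5
  have hM : 0 < M := by omega
  have hm0 : ((5 * M : ℕ) : ℂ) ≠ 0 := by exact_mod_cast (by omega : 5 * M ≠ 0)
  -- `x` is a primitive `m`-th root of unity
  have hprim : IsPrimitiveRoot x (5 * M) := by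
    have h0 := Complex.isPrimitiveRoot_exp (5 * M) (by omega)
    have hxz : x = Complex.exp (2 * Real.pi * Complex.I / ((5 * M : ℕ) : ℂ)) ^ l := by
      rw [hx, ← Complex.exp_int_mul]; congr 1; ring
    rw [hxz]
    exact h0.zpow_of_gcd_eq_one l (by
      rw [Int.isCoprime_iff_gcd_eq_one] at hl; exact hl)
  have hxm : x ^ (5 * M) = 1 := hprim.pow_eq_one
  -- `a x^(s₀) = 1`
  have has : a * x ^ s₀ = 1 := by
    obtain ⟨K, hK⟩ := hkm
    have hK0 : (K : ℂ) ≠ 0 := by
      intro h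
      have : K = 0 := by exact_mod_cast h
      rw [this] at hK; omega
    have hk0 : (k : ℂ) ≠ 0 := by exact_mod_cast (by omega : k ≠ 0)
    have hmk : 5 * M / k = K := by rw [hK]; exact Nat.mul_div_cancel_left K (by omega)
    rw [hmk] at hs₀
    obtain ⟨t, ht⟩ := (Int.modEq_iff_dvd.mp hs₀.symm)
    obtain ⟨u, hu⟩ := (Int.modEq_iff_dvd.mp hl'.symm)
    have hs : s₀ = -(K : ℤ) * j * l' + ((5 * M : ℕ) : ℤ) * t := by linarith
    have hll : l * l' = 1 + ((5 * M : ℕ) : ℤ) * u := by linarith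
    have hkey : l * s₀ = -(K : ℤ) * j + ((5 * M : ℕ) : ℤ) * (-(K : ℤ) * j * u + l * t) := by
      rw [hs]; linear_combination (-(K : ℤ) * j) * hll
    rw [ha, hx, ← Complex.exp_int_mul, ← Complex.exp_add, Complex.exp_eq_one_iff]
    refine ⟨-(K : ℤ) * j * u + l * t, ?_⟩
    have hmc : ((5 * M : ℕ) : ℂ) = (k : ℂ) * (K : ℂ) := by rw [hK]; push_cast; ring
    have hkey' : (l : ℂ) * (s₀ : ℂ) = -(K : ℂ) * j + ((5 * M : ℕ) : ℂ) *
        (-(K : ℂ) * j * u + l * t) := by exact_mod_cast congrArg (Int.cast : ℤ → ℂ) hkey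
    have e1 : (s₀ : ℂ) * (2 * Real.pi * Complex.I * l / ((5 * M : ℕ) : ℂ))
        = 2 * Real.pi * Complex.I * (l * s₀) / ((5 * M : ℕ) : ℂ) := by ring
    rw [e1, hkey', hmc]
    push_cast
    field_simp
    ring
  -- index class in terms of powers of `x`
  have hpow : ∀ d : ℤ, (r : ℤ) ≡ s₀ - d [ZMOD ((5 * M : ℕ) : ℤ)] → a * x ^ ((r : ℤ) + d) = 1 := by
    intro d hd
    obtain ⟨t, ht⟩ := Int.modEq_iff_dvd.mp hd.symm
    have : (r : ℤ) + d = s₀ + ((5 * M : ℕ) : ℤ) * t := by linarith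
    rw [this, zpow_add₀ hx0, zpow_mul, zpow_natCast, hxm, one_zpow, mul_one, has]
  obtain ⟨N, hN⟩ : ∃ N, 5 * M = N + 3 := ⟨5 * M - 3, by omega⟩
  have hN1 : 5 * M - 1 = N + 2 := by omega
  have hN2 : 5 * M - 2 = N + 1 := by omega
  have hN3 : 5 * M - 3 = N := by omega
  have hxN : x ^ (N + 3) = 1 := by rw [← hN]; exact hxm
  have hPr : ∀ n, P a x (n + 2) = P a x (n + 1) + a * x ^ (n + 2) * P a x n := fun n => rfl
  have hQr : ∀ n, Q a x (n + 2) = Q a x (n + 1) + a * x ^ (n + 2) * Q a x n := fun n => rfl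
  refine ⟨vec_ne_zero a x ha0 hx0 r, ?_⟩
  -- it suffices to compare index `r + m` with index `r`
  have main : ∀ μ : ℂ, μ ^ 2 = μ + 1 → P a x (r + 5 * M) = μ * P a x r →
      Q a x (r + 5 * M) = μ * Q a x r →
      ∃ μ : ℂ, (μ = (1 + (Real.sqrt 5 : ℂ)) / 2 ∨ μ = (1 - (Real.sqrt 5 : ℂ)) / 2) ∧
      Matrix.mulVec !![a * x ^ (5 * M - 1) * P a x (5 * M - 3), P a x (5 * M - 2);
                       a * x ^ (5 * M - 1) * Q a x (5 * M - 3), Q a x (5 * M - 2)]
        ![P a x r, Q a x r] = μ • ![P a x r, Q a x r] := by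
    intro μ hμ h1 h2
    refine ⟨μ, golden hμ, ?_⟩
    rw [hN1, hN2, hN3]
    have s1 := shift_row hxN (P a x) hPr r
    have s2 := shift_row hxN (Q a x) hQr r
    rw [← hN, h1] at s1
    rw [← hN, h2] at s2
    ext i
    fin_cases i
    · simp [Matrix.mulVec, dotProduct, Fin.sum_univ_two]
      linear_combination -s1
    · simp [Matrix.mulVec, dotProduct, Fin.sum_univ_two]
      linear_combination -s2
  rcases hr with hr | hr
  · have h1 := hpow 1 hr
    have h1' : a * x ^ (r + 1) = 1 := by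
      rw [← h1]; congr 1
    refine main (Gsol x (5 * M)) (Gsol_sq hM hprim) ?_ ?_
    · exact case_one hM hprim (fun t => P a x (r + t)) (fun t => by
        have := hPr (r + t)
        show P a x (r + t + 2) = P a x (r + t + 1) + x ^ (t + 1) * P a x (r + t)
        rw [this, show r + t + 2 = (r + 1) + (t + 1) by ring, pow_add]
        linear_combination (x ^ (t + 1) * P a x (r + t)) * h1')
    · exact case_one hM hprim (fun t => Q a x (r + t)) (fun t => by
        have := hQr (r + t)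
        show Q a x (r + t + 2) = Q a x (r + t + 1) + x ^ (t + 1) * Q a x (r + t)
        rw [this, show r + t + 2 = (r + 1) + (t + 1) by ring, pow_add]
        linear_combination (x ^ (t + 1) * Q a x (r + t)) * h1')
  · have h1 := hpow 2 hr
    have h1' : a * x ^ (r + 2) = 1 := by
      rw [← h1]; congr 1
    have hsq := Gsol_sq hM hprim.inv
    refine main (1 - Gsol x⁻¹ (5 * M)) (by linear_combination hsq) ?_ ?_
    · exact case_two hM hprim (fun t => P a x (r + t)) (fun t => by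
        have := hPr (r + t)
        show P a x (r + t + 2) = P a x (r + t + 1) + x ^ t * P a x (r + t)
        rw [this, show r + t + 2 = (r + 2) + t by ring, pow_add]
        linear_combination (x ^ t * P a x (r + t)) * h1')
    · exact case_two hM hprim (fun t => Q a x (r + t)) (fun t => by
        have := hQr (r + t)
        show Q a x (r + t + 2) = Q a x (r + t + 1) + x ^ t * Q a x (r + t)
        rw [this, show r + t + 2 = (r + 2) + t by ring, pow_add]
        linear_combination (x ^ t * Q a x (r + t)) * h1')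

end main

end Pool.Agent.Results.MP_b3b2bb_nt.EigenvectorApproximants
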